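import Pool.Agent.H67.FG.Run

/-!
# FG, module NUM: parameters (proof)
-/

set_option autoImplicit false

namespace Pool.Agent.H81.FG

open Pool.Agent.H67.FG

/-- the exponents -/
def ex (c : ℕ) : ℕ → ℕ
  | 0 => c
  | i + 1 => 4 * ex c i + 4

theorem lev_le {X w L c : ℕ} (hX : 3 ≤ X) (hw1 : 1 ≤ w) (hw : w ≤ X) (hL : L ≤ X ^ c) :
    ∀ i, lev w L i ≤ X ^ ex c i
  | 0 => hL
  | i + 1 => by
    have ih := lev_le hX hw1 hw hL i
    have h1 : lev w L i ≤ w * lev w L i ^ 4 := by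
      calc lev w L i ≤ lev w L i ^ 4 := Nat.le_self_pow (by norm_num) _
        _ = 1 * lev w L i ^ 4 := (one_mul _).symm
        _ ≤ w * lev w L i ^ 4 := Nat.mul_le_mul_right _ hw1
    have h2 : 17 ≤ X ^ 3 := by
      calc 17 ≤ 3 ^ 3 := by norm_num
        _ ≤ X ^ 3 := Nat.pow_le_pow_left hX 3
    calc lev w L (i + 1) = 16 * w * lev w L i ^ 4 + lev w L i := rfl
      _ ≤ 16 * w * lev w L i ^ 4 + w * lev w L i ^ 4 := by omega
      _ = 17 * w * lev w L i ^ 4 := by ring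
      _ ≤ X ^ 3 * X * (X ^ ex c i) ^ 4 :=
        Nat.mul_le_mul (Nat.mul_le_mul h2 hw) (Nat.pow_le_pow_left ih 4)
      _ = X ^ ex c (i + 1) := by
        rw [ex, ← pow_succ, ← pow_mul, ← pow_add]
        congr 1
        ring

/-- the first point set is polynomial in `p t` -/
theorem num (d k : ℕ) : ∃ C : ℕ, ∀ p t q : ℕ, 3 ≤ p → 1 ≤ t → q = 1000 * (k + 3) * (t * p * (2 * t + 2) ^ 2) →
    lev (2 * t + 1) (q * (q - 1) + 1) d ≤ (p * t) ^ C := by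
  refine ⟨ex (2 * (16000 * (k + 3) + 3)) d, fun p t q hp ht hq => ?_⟩
  have hX : 3 ≤ p * t := by nlinarith
  have htX : 3 * t ≤ p * t := Nat.mul_le_mul_right t hp
  refine lev_le hX (by omega) (by omega) ?_ d
  have hc : 16000 * (k + 3) ≤ (p * t) ^ (16000 * (k + 3)) := by
    calc 16000 * (k + 3) ≤ 2 ^ (16000 * (k + 3)) := Nat.lt_two_pow_self.le
      _ ≤ (p * t) ^ (16000 * (k + 3)) := Nat.pow_le_pow_left (by omega) _
  have h1 : (2 * t + 2) ^ 2 ≤ 16 * (p * t) ^ 2 := by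
    calc (2 * t + 2) ^ 2 ≤ (4 * (p * t)) ^ 2 := Nat.pow_le_pow_left (by omega) 2
      _ = 16 * (p * t) ^ 2 := by ring
  have hqX : q ≤ (p * t) ^ (16000 * (k + 3) + 3) := by
    calc q = 1000 * (k + 3) * (t * p * (2 * t + 2) ^ 2) := hq
      _ ≤ 1000 * (k + 3) * (t * p * (16 * (p * t) ^ 2)) :=
        Nat.mul_le_mul_left _ (Nat.mul_le_mul_left _ h1)
      _ = 16000 * (k + 3) * (p * t) ^ 3 := by ring
      _ ≤ (p * t) ^ (16000 * (k + 3)) * (p * t) ^ 3 := Nat.mul_le_mul_right _ hc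
      _ = (p * t) ^ (16000 * (k + 3) + 3) := (pow_add _ _ _).symm
  have hq1 : 1 ≤ q := by
    rw [hq]
    have h2 : 0 < t * p * (2 * t + 2) ^ 2 := by positivity
    nlinarith
  have h3 : q * (q - 1) + 1 ≤ q * q := by
    obtain ⟨m, rfl⟩ : ∃ m, q = m + 1 := ⟨q - 1, by omega⟩
    simp only [Nat.add_sub_cancel]
    nlinarith
  have h4 : ∀ c : ℕ, (p * t) ^ c * (p * t) ^ c = (p * t) ^ (2 * c) := fun c => by rw [two_mul, pow_add]
  calc q * (q - 1) + 1 ≤ q * q := h3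
    _ ≤ (p * t) ^ (16000 * (k + 3) + 3) * (p * t) ^ (16000 * (k + 3) + 3) := Nat.mul_le_mul hqX hqX
    _ = (p * t) ^ (2 * (16000 * (k + 3) + 3)) := h4 _

end Pool.Agent.H81.FG
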