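import Pool.Agent.H67.FG.Run

/-!
# FG, module NUM, general form: parameters for `t` gates at each of `l` levels, modulus `m`
-/

set_option autoImplicit false

namespace Pool.Agent.H81.FG

open Pool.Agent.H67.FG

/-- the exponents -/
def exL (c : ℕ) : ℕ → ℕ
  | 0 => c
  | i + 1 => 4 * exL c i + 7

theorem lev_leL {X w L c : ℕ} (hX : 2 ≤ X) (hw1 : 1 ≤ w) (hw : w ≤ X ^ 2) (hL : L ≤ X ^ c) :
    ∀ i, lev w L i ≤ X ^ exL c i
  | 0 => hL
  | i + 1 => by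
    have ih := lev_leL hX hw1 hw hL i
    have h1 : lev w L i ≤ w * lev w L i ^ 4 := by
      calc lev w L i ≤ lev w L i ^ 4 := Nat.le_self_pow (by norm_num) _
        _ = 1 * lev w L i ^ 4 := (one_mul _).symm
        _ ≤ w * lev w L i ^ 4 := Nat.mul_le_mul_right _ hw1
    have h2 : 17 ≤ X ^ 5 := by
      calc 17 ≤ 2 ^ 5 := by norm_num
        _ ≤ X ^ 5 := Nat.pow_le_pow_left hX 5
    calc lev w L (i + 1) = 16 * w * lev w L i ^ 4 + lev w L i := rfl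
      _ ≤ 16 * w * lev w L i ^ 4 + w * lev w L i ^ 4 := by omega
      _ = 17 * w * lev w L i ^ 4 := by ring
      _ ≤ X ^ 5 * X ^ 2 * (X ^ exL c i) ^ 4 :=
        Nat.mul_le_mul (Nat.mul_le_mul h2 hw) (Nat.pow_le_pow_left ih 4)
      _ = X ^ exL c (i + 1) := by
        rw [exL, ← pow_add, ← pow_mul, ← pow_add]
        congr 1
        ring

/-- the first point set is polynomial in `m t`; `m` the modulus, `t` gates at each of `l` levels -/
theorem numL (d k l : ℕ) : ∃ C : ℕ, ∀ m t w q : ℕ, 2 ≤ m → 1 ≤ t → 1 ≤ w → w ≤ 4 * t →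
    q ≤ 1000 * (k + 3) * ((t * m) ^ l * (w + 1) ^ 2) → lev w (q * (q - 1) + 1) d ≤ (m * t) ^ C := by
  refine ⟨exL (2 * (25000 * (k + 3) + (l + 2))) d, fun m t w q hm ht hw1 hw hq => ?_⟩
  have hX : 2 ≤ m * t := by nlinarith
  have htX : 2 * t ≤ m * t := Nat.mul_le_mul_right t hm
  have hwX : w ≤ (m * t) ^ 2 := by nlinarith
  refine lev_leL hX hw1 hwX ?_ d
  have hc : 25000 * (k + 3) ≤ (m * t) ^ (25000 * (k + 3)) := by
    calc 25000 * (k + 3) ≤ 2 ^ (25000 * (k + 3)) := Nat.lt_two_pow_self.le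
      _ ≤ (m * t) ^ (25000 * (k + 3)) := Nat.pow_le_pow_left (by omega) _
  have h1 : (w + 1) ^ 2 ≤ 25 * (m * t) ^ 2 := by
    calc (w + 1) ^ 2 ≤ (5 * (m * t)) ^ 2 := Nat.pow_le_pow_left (by omega) 2
      _ = 25 * (m * t) ^ 2 := by ring
  have hqX : q ≤ (m * t) ^ (25000 * (k + 3) + (l + 2)) := by
    calc q ≤ 1000 * (k + 3) * ((t * m) ^ l * (w + 1) ^ 2) := hq
      _ ≤ 1000 * (k + 3) * ((t * m) ^ l * (25 * (m * t) ^ 2)) :=
        Nat.mul_le_mul_left _ (Nat.mul_le_mul_left _ h1)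
      _ = 25000 * (k + 3) * ((m * t) ^ l * (m * t) ^ 2) := by rw [mul_comm t m]; ring
      _ ≤ (m * t) ^ (25000 * (k + 3)) * ((m * t) ^ l * (m * t) ^ 2) := Nat.mul_le_mul_right _ hc
      _ = (m * t) ^ (25000 * (k + 3) + (l + 2)) := by rw [← pow_add, ← pow_add]
  have h4 : ∀ c : ℕ, (m * t) ^ c * (m * t) ^ c = (m * t) ^ (2 * c) := fun c => by rw [two_mul, pow_add]
  have h3 : q * (q - 1) + 1 ≤
      (m * t) ^ (25000 * (k + 3) + (l + 2)) * (m * t) ^ (25000 * (k + 3) + (l + 2)) := by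
    have h5 : 1 ≤ (m * t) ^ (25000 * (k + 3) + (l + 2)) := Nat.one_le_pow _ _ (by omega)
    rcases Nat.eq_zero_or_pos q with h0 | h0
    · subst h0
      simp only [zero_mul, zero_add]
      exact Nat.one_le_iff_ne_zero.2 (Nat.mul_ne_zero (by omega) (by omega))
    · have h6 : q * (q - 1) + 1 ≤ q * q := by
        obtain ⟨n, rfl⟩ : ∃ n, q = n + 1 := ⟨q - 1, by omega⟩
        simp only [Nat.add_sub_cancel]
        nlinarith
      exact h6.trans (Nat.mul_le_mul hqX hqX)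
  exact h3.trans (h4 _).le

/-- the form with `l` levels: `w = 2 t + 1` -/
theorem num2 (d k l : ℕ) : ∃ C : ℕ, ∀ m t q : ℕ, 2 ≤ m → 1 ≤ t →
    q = 1000 * (k + 3) * ((t * m) ^ l * (2 * t + 2) ^ 2) → lev (2 * t + 1) (q * (q - 1) + 1) d ≤ (m * t) ^ C := by
  obtain ⟨C, hC⟩ := numL d k l
  exact ⟨C, fun m t q hm ht hq => hC m t (2 * t + 1) q hm ht (by omega) (by omega) hq.le⟩

/-- the form with `l` levels, `m ≥ 3` -/
theorem num' (d k l : ℕ) : ∃ C : ℕ, ∀ m t q : ℕ, 3 ≤ m → 1 ≤ t →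
    q = 1000 * (k + 3) * ((t * m) ^ l * (2 * t + 2) ^ 2) → lev (2 * t + 1) (q * (q - 1) + 1) d ≤ (m * t) ^ C := by
  obtain ⟨C, hC⟩ := num2 d k l
  exact ⟨C, fun m t q hm ht hq => hC m t q (by omega) ht hq⟩

end Pool.Agent.H81.FG
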